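import Pool.Agent.W544.FF.Defs

open Matrix Finset Module

namespace Pool.Agent.W52.FF.DEQ

open Pool.Agent.W544.PG Pool.Agent.W544.FF

theorem sum_fun {n k : ℕ} {K T : Type} [CommRing K] [Fintype T] [DecidableEq T]
    (g : T → Fin k) (hg : Function.Bijective g) (f : T → Fin n → K) :
    ∑ L : Fin k → Fin n, ∏ x, f x (L (g x)) = ∏ x, ∑ l, f x l := by
  let e : T ≃ Fin k := Equiv.ofBijective g hg
  have h1 : ∑ L : Fin k → Fin n, ∏ x, f x (L (g x))
      = ∑ M : T → Fin n, ∏ x, f x (M x) :=
    Equiv.sum_comp (Equiv.arrowCongr e.symm (Equiv.refl (Fin n)))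
      (fun M : T → Fin n => ∏ x, f x (M x))
  rw [h1, Finset.prod_univ_sum, Fintype.piFinset_univ]

theorem dt_eq {n r k : ℕ} {K : Type} [CommRing K] (c : Fin n → Fin r) (S : Finset (Fin r))
    (g : {b : Fin n // c b ∈ S} → Fin k) (L : Fin k → Fin n) :
    (dt c S id g L : K) = ∑ σ : Equiv.Perm {b : Fin n // c b ∈ S},
      ((Equiv.Perm.sign σ : ℤ) : K) *
        ∏ x, (if c (σ x).1 = c x.1 ∧ L (g x) = (σ x).1 then (1 : K) else 0) := by
  unfold dt
  rw [← Matrix.det_transpose, Matrix.det_apply']
  rfl

theorem pull_dt {n r k : ℕ} {K : Type} [CommRing K] (c : Fin n → Fin r) (S : Finset (Fin r))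
    (g : {b : Fin n // c b ∈ S} → Fin k) (hg : Function.Bijective g)
    (A : Matrix (Fin n) (Fin n) K) (hA : BD c A) (J : Fin k → Fin n) :
    pull A (fun J => (dt c S id g J : K)) J =
      dt c S id g J * (A.submatrix (fun b : {b : Fin n // c b ∈ S} => b.1) (fun b => b.1)).det := by
  have h0 : ∀ L : Fin k → Fin n, ∏ j, A (L j) (J j)
      = ∏ x : {b : Fin n // c b ∈ S}, A (L (g x)) (J (g x)) := fun L =>
    (Equiv.prod_comp (Equiv.ofBijective g hg) (fun j => A (L j) (J j))).symm
  have h1 : pull A (fun J => (dt c S id g J : K)) J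
      = ∑ σ : Equiv.Perm {b : Fin n // c b ∈ S}, ((Equiv.Perm.sign σ : ℤ) : K) *
        ∏ x, (if c (σ x).1 = c x.1 then A (σ x).1 (J (g x)) else 0) := by
    unfold pull
    simp only [h0, dt_eq, Finset.mul_sum]
    rw [Finset.sum_comm]
    refine Finset.sum_congr rfl fun σ _ => ?_
    have h2 : ∀ L : Fin k → Fin n,
        (∏ x : {b : Fin n // c b ∈ S}, A (L (g x)) (J (g x))) *
          (((Equiv.Perm.sign σ : ℤ) : K) *
            ∏ x, (if c (σ x).1 = c x.1 ∧ L (g x) = (σ x).1 then (1 : K) else 0))
        = ((Equiv.Perm.sign σ : ℤ) : K) * ∏ x, (fun (x : {b : Fin n // c b ∈ S}) (l : Fin n) =>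
            A l (J (g x)) * (if c (σ x).1 = c x.1 ∧ l = (σ x).1 then (1 : K) else 0)) x (L (g x)) := by
      intro L
      rw [Finset.prod_mul_distrib]
      ring
    rw [Finset.sum_congr rfl fun L _ => h2 L, ← Finset.mul_sum]
    congr 1
    refine (sum_fun g hg (fun (x : {b : Fin n // c b ∈ S}) (l : Fin n) =>
      A l (J (g x)) * (if c (σ x).1 = c x.1 ∧ l = (σ x).1 then (1 : K) else 0))).trans ?_
    refine Finset.prod_congr rfl fun x _ => ?_
    by_cases hx : c (σ x).1 = c x.1
    · simp [hx]
    · simp [hx]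
  rw [h1]
  have h3 : (dt c S id g J : K)
      * (A.submatrix (fun b : {b : Fin n // c b ∈ S} => b.1) (fun b => b.1)).det
      = (Matrix.of fun x y : {b : Fin n // c b ∈ S} =>
          if c y.1 = c x.1 then A y.1 (J (g x)) else 0).det := by
    unfold dt
    rw [← Matrix.det_transpose (A.submatrix _ _), ← Matrix.det_mul]
    congr 1
    ext x y
    rw [Matrix.mul_apply]
    simp only [Matrix.of_apply, Matrix.transpose_apply, Matrix.submatrix_apply, id, ite_mul,
      one_mul, zero_mul]
    by_cases hc : c (J (g x)) = c x.1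
    · have hS : c (J (g x)) ∈ S := by rw [hc]; exact x.2
      rw [Finset.sum_eq_single (⟨J (g x), hS⟩ : {b : Fin n // c b ∈ S})]
      · simp only [hc, and_self, if_true]
        by_cases hy : c y.1 = c x.1
        · simp [hy]
        · rw [if_neg hy]
          exact hA _ _ (by rw [hc]; exact hy)
      · intro z _ hz
        rw [if_neg]
        rintro ⟨_, h4⟩
        exact hz (Subtype.ext h4.symm)
      · intro h
        exact absurd (Finset.mem_univ _) h
    · rw [Finset.sum_eq_zero]
      · by_cases hy : c y.1 = c x.1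
        · rw [if_pos hy]
          exact (hA _ _ (by rw [hy]; exact fun h => hc h.symm)).symm
        · rw [if_neg hy]
      · intro z _
        rw [if_neg]
        rintro ⟨h4, h5⟩
        exact hc (by rw [h5]; exact h4)
  rw [h3, ← Matrix.det_transpose, Matrix.det_apply']
  rfl

/-- the blocks with colours in `S`, completed by the identity -/
def blS {n r : ℕ} {K : Type} [Zero K] [One K] (c : Fin n → Fin r) (S : Finset (Fin r))
    (A : Matrix (Fin n) (Fin n) K) : Matrix (Fin n) (Fin n) K :=
  Matrix.of fun a b => if c a ∈ S ∧ c b ∈ S then A a b else if a = b then 1 else 0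

theorem blS_insert {n r : ℕ} {K : Type} [CommRing K] (c : Fin n → Fin r) (S : Finset (Fin r))
    (i : Fin r) (hi : i ∉ S) (A : Matrix (Fin n) (Fin n) K) (hA : BD c A) :
    blS c (insert i S) A = bl c i A * blS c S A := by
  ext a b
  rw [Matrix.mul_apply]
  simp only [blS, bl, Matrix.of_apply, Finset.mem_insert]
  by_cases ha : c a = i
  · have h1 : ∀ z, (if c a = i ∧ c z = i then A a z else if a = z then 1 else 0)
        * (if c z ∈ S ∧ c b ∈ S then A z b else if z = b then 1 else 0)
        = if z = b then (if c b = i then A a b else 0) else 0 := by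
      intro z
      by_cases hz : c z = i
      · have hzS : c z ∉ S := by rw [hz]; exact hi
        by_cases hzb : z = b
        · subst hzb
          simp [ha, hz, hi]
        · simp [ha, hz, hi, hzb]
      · have haz : a ≠ z := fun h => hz (h ▸ ha)
        by_cases hzb : z = b
        · subst hzb
          simp [hz, haz]
        · simp [hz, haz, hzb]
    rw [Finset.sum_congr rfl fun z _ => h1 z, Finset.sum_ite_eq' Finset.univ b]
    simp only [Finset.mem_univ, if_true]
    by_cases hb : c b = i
    · simp [ha, hb]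
    · have hab : a ≠ b := fun h => hb (h ▸ ha)
      have h0 : A a b = 0 := hA a b (by rw [ha]; exact fun h => hb h.symm)
      simp [hb, hab, h0]
  · have h1 : ∀ z, (if c a = i ∧ c z = i then A a z else if a = z then 1 else 0)
        * (if c z ∈ S ∧ c b ∈ S then A z b else if z = b then 1 else 0)
        = if z = a then (if c a ∈ S ∧ c b ∈ S then A a b else if a = b then 1 else 0) else 0 := by
      intro z
      by_cases hza : z = a
      · subst hza
        simp [ha]
      · have haz : a ≠ z := fun h => hza h.symm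
        simp [ha, hza, haz]
    rw [Finset.sum_congr rfl fun z _ => h1 z, Finset.sum_ite_eq' Finset.univ a]
    simp only [Finset.mem_univ, if_true]
    by_cases hb : c b = i
    · have hab : a ≠ b := fun h => ha (h ▸ hb)
      have h0 : A a b = 0 := hA a b (by rw [hb]; exact ha)
      have hbS : c b ∉ S := by rw [hb]; exact hi
      simp [ha, hb, hab, h0]
    · simp [ha, hb]

theorem det_blS {n r : ℕ} {K : Type} [CommRing K] (c : Fin n → Fin r) (S : Finset (Fin r))
    (A : Matrix (Fin n) (Fin n) K) (hA : BD c A) :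
    (blS c S A).det = ∏ i ∈ S, (bl c i A).det := by
  induction S using Finset.induction_on with
  | empty =>
    have h : blS c ∅ A = 1 := by
      ext a b
      simp [blS, Matrix.one_apply]
    rw [h, Matrix.det_one, Finset.prod_empty]
  | insert i S hi ih =>
    rw [blS_insert c S i hi A hA, Matrix.det_mul, Finset.prod_insert hi, ih]

theorem det_sub {n r : ℕ} {K : Type} [CommRing K] (c : Fin n → Fin r) (S : Finset (Fin r))
    (A : Matrix (Fin n) (Fin n) K) :
    (A.submatrix (fun b : {b : Fin n // c b ∈ S} => b.1) (fun b => b.1)).det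
      = (blS c S A).det := by
  rw [Matrix.twoBlockTriangular_det (blS c S A) (fun b => c b ∈ S)]
  · have h1 : (blS c S A).toSquareBlockProp (fun b => c b ∈ S)
        = A.submatrix (fun b : {b : Fin n // c b ∈ S} => b.1) (fun b => b.1) := by
      ext x y
      simp [Matrix.toSquareBlockProp, blS, x.2, y.2]
    have h2 : (blS c S A).toSquareBlockProp (fun b => ¬ c b ∈ S) = 1 := by
      ext x y
      simp [Matrix.toSquareBlockProp, blS, x.2, Matrix.one_apply, Subtype.ext_iff]
    rw [h1, h2, Matrix.det_one, mul_one]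
  · intro i hi j hj
    have hij : i ≠ j := fun h => hi (h ▸ hj)
    simp [blS, hi, hij]

theorem deq : S_deq := by
  intro n r k c S g hg R _ hR
  funext J
  have hRC : BD c (rC R) := by
    intro a b hab
    simp [rC, hR a b hab]
  rw [pull_dt c S g hg (rC R) hRC J, Pi.smul_apply, smul_eq_mul, mul_comm]
  congr 1
  have h1 : ((rC R).submatrix (fun b : {b : Fin n // c b ∈ S} => b.1) (fun b => b.1))
      = (Complex.ofRealHom.mapMatrix
        (R.submatrix (fun b : {b : Fin n // c b ∈ S} => b.1) (fun b => b.1))) := by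
    ext x y
    simp [rC]
  rw [h1, ← RingHom.map_det, det_sub, det_blS c S R hR]
  rfl

end Pool.Agent.W52.FF.DEQ
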